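import Pool.Agent.W263.SP.Stm

set_option autoImplicit false

namespace Pool.Agent.W806.SP

open MeasureTheory Set Pool.Agent.W263.SP

/-- the majorant -/
noncomputable def hh (σ t y : ℝ) : ℝ := 2 / (σ + |y - t|)

lemma den_pos (σ t y : ℝ) (hσ : 0 < σ) : 0 < σ + |y - t| := by positivity

lemma hh_cont (σ t : ℝ) (hσ : 0 < σ) : Continuous (hh σ t) := by
  unfold hh
  exact continuous_const.div (by fun_prop) (fun y => (den_pos σ t y hσ).ne')

lemma I1 (σ t : ℝ) (hσ : 0 < σ) :
    ∫ y in t..(t + 1), hh σ t y = 2 * (Real.log (σ + 1) - Real.log σ) := by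
  have h1 : ∀ y ∈ uIcc t (t + 1), HasDerivAt (fun y => 2 * Real.log (σ + (y - t))) (hh σ t y) y := by
    intro y hy
    rw [uIcc_of_le (by linarith)] at hy
    have hyt : 0 ≤ y - t := by linarith [hy.1]
    unfold hh
    rw [abs_of_nonneg hyt]
    have h2 : HasDerivAt (fun y : ℝ => σ + (y - t)) 1 y := by
      simpa using ((hasDerivAt_id y).sub_const t).const_add σ
    have h3 := (h2.log (by positivity : σ + (y - t) ≠ 0)).const_mul (2 : ℝ)
    rwa [show 2 * (1 / (σ + (y - t))) = 2 / (σ + (y - t)) by ring] at h3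
  rw [intervalIntegral.integral_eq_sub_of_hasDerivAt h1
    ((hh_cont σ t hσ).intervalIntegrable _ _)]
  simp only [add_sub_cancel_left, sub_self, add_zero]
  ring

lemma I2 (σ t : ℝ) (hσ : 0 < σ) :
    ∫ y in (t - 1)..t, hh σ t y = 2 * (Real.log (σ + 1) - Real.log σ) := by
  have h1 : ∀ y ∈ uIcc (t - 1) t, HasDerivAt (fun y => -(2 * Real.log (σ + (t - y))))
      (hh σ t y) y := by
    intro y hy
    rw [uIcc_of_le (by linarith)] at hy
    have hyt : 0 ≤ t - y := by linarith [hy.2]
    unfold hh
    rw [abs_sub_comm, abs_of_nonneg hyt]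
    have h2 : HasDerivAt (fun y : ℝ => σ + (t - y)) (-1) y := by
      simpa using ((hasDerivAt_id y).const_sub t).const_add σ
    have h3 := ((h2.log (by positivity : σ + (t - y) ≠ 0)).const_mul (2 : ℝ)).neg
    rwa [show -(2 * (-1 / (σ + (t - y)))) = 2 / (σ + (t - y)) by ring] at h3
  rw [intervalIntegral.integral_eq_sub_of_hasDerivAt h1
    ((hh_cont σ t hσ).intervalIntegrable _ _)]
  simp only [sub_sub_cancel, sub_self, add_zero]
  ring

lemma lI (σ t : ℝ) (hσ : 0 < σ) :
    ∫⁻ y in Icc (t - 1) (t + 1), ENNReal.ofReal (hh σ t y) =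
      ENNReal.ofReal (4 * (Real.log (σ + 1) - Real.log σ)) := by
  have hnn : ∀ y, 0 ≤ hh σ t y := fun y => by
    unfold hh; have := den_pos σ t y hσ; positivity
  rw [← ofReal_integral_eq_lintegral_ofReal
    ((hh_cont σ t hσ).continuousOn.integrableOn_compact isCompact_Icc)
    (Filter.Eventually.of_forall hnn)]
  congr 1
  rw [integral_Icc_eq_integral_Ioc, ← intervalIntegral.integral_of_le (by linarith),
    ← intervalIntegral.integral_add_adjacent_intervals (b := t)
      ((hh_cont σ t hσ).intervalIntegrable _ _) ((hh_cont σ t hσ).intervalIntegrable _ _),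
    I1 σ t hσ, I2 σ t hσ]
  ring

lemma win1 (σ t y0 : ℝ) (hσ : 0 < σ) (hσ1 : σ ≤ 1) :
    ∫⁻ y in Icc (y0 - 1 / 2) (y0 + 1 / 2), ENNReal.ofReal (hh σ t y) ≤
      ENNReal.ofReal (5 * (1 + Real.log (1 / σ))) := by
  set J := Icc (y0 - 1 / 2) (y0 + 1 / 2) with hJ
  set I := Icc (t - 1) (t + 1) with hI
  have h1 : J ⊆ (J \ I) ∪ I := by
    intro y hy
    by_cases h : y ∈ I
    · exact Or.inr h
    · exact Or.inl ⟨hy, h⟩
  have h2 : ∫⁻ y in J \ I, ENNReal.ofReal (hh σ t y) ≤ ENNReal.ofReal 2 := by
    calc ∫⁻ y in J \ I, ENNReal.ofReal (hh σ t y) ≤ ∫⁻ _ in J \ I, ENNReal.ofReal 2 := by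
          refine setLIntegral_mono' (measurableSet_Icc.diff measurableSet_Icc) (fun y hy => ?_)
          apply ENNReal.ofReal_le_ofReal
          have h3 : 1 ≤ |y - t| := by
            by_contra hcon
            push Not at hcon
            apply hy.2
            rw [abs_lt] at hcon
            exact ⟨by linarith [hcon.1], by linarith [hcon.2]⟩
          unfold hh
          rw [div_le_iff₀ (den_pos σ t y hσ)]
          nlinarith
      _ ≤ ∫⁻ _ in J, ENNReal.ofReal 2 := lintegral_mono_set sdiff_subset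
      _ = ENNReal.ofReal 2 := by
          rw [setLIntegral_const, Real.volume_Icc]
          norm_num
  have hlog : 0 ≤ Real.log (σ + 1) - Real.log σ := by
    have := Real.log_le_log hσ (by linarith : σ ≤ σ + 1)
    linarith
  calc ∫⁻ y in J, ENNReal.ofReal (hh σ t y)
      ≤ ∫⁻ y in (J \ I) ∪ I, ENNReal.ofReal (hh σ t y) := lintegral_mono_set h1
    _ ≤ (∫⁻ y in J \ I, ENNReal.ofReal (hh σ t y)) + ∫⁻ y in I, ENNReal.ofReal (hh σ t y) :=
        lintegral_union_le _ _ _
    _ ≤ ENNReal.ofReal 2 + ENNReal.ofReal (4 * (Real.log (σ + 1) - Real.log σ)) := by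
        rw [lI σ t hσ]
        exact add_le_add h2 le_rfl
    _ = ENNReal.ofReal (2 + 4 * (Real.log (σ + 1) - Real.log σ)) :=
        (ENNReal.ofReal_add (by norm_num) (by positivity)).symm
    _ ≤ ENNReal.ofReal (5 * (1 + Real.log (1 / σ))) := by
        apply ENNReal.ofReal_le_ofReal
        have h4 : Real.log (σ + 1) ≤ Real.log 2 := Real.log_le_log (by linarith) (by linarith)
        have h5 : Real.log 2 < 0.6931471808 := Real.log_two_lt_d9
        have h6 : Real.log (1 / σ) = - Real.log σ := by rw [one_div, Real.log_inv]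
        have h7 : Real.log σ ≤ 0 := Real.log_nonpos hσ.le hσ1
        rw [h6]
        linarith

theorem win : WIN := by
  intro D K hK hLB
  refine ⟨6 * K, by positivity, ?_⟩
  intro σ hσ hσ1 y0
  obtain ⟨n, ρ, hn, hρ, hD⟩ := hLB y0
  have hL : 0 ≤ Real.log (2 + |y0|) := Real.log_nonneg (by linarith [abs_nonneg y0])
  have hls : 0 ≤ Real.log (1 / σ) := Real.log_nonneg (by rw [one_div]; exact (one_le_inv₀ hσ).2 hσ1)
  have hnn : ∀ (i : Fin n) (y : ℝ), 0 ≤ hh σ (ρ i).im y := fun i y => by
    unfold hh; have := den_pos σ (ρ i).im y hσ; positivity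
  have hm : ∀ i : Fin n, Measurable (fun y => ENNReal.ofReal (hh σ (ρ i).im y)) := fun i =>
    ENNReal.measurable_ofReal.comp (hh_cont σ (ρ i).im hσ).measurable
  calc ∫⁻ y in Icc (y0 - 1 / 2) (y0 + 1 / 2), ENNReal.ofReal ‖D ((σ : ℂ) + y * Complex.I)‖
      ≤ ∫⁻ y in Icc (y0 - 1 / 2) (y0 + 1 / 2), (ENNReal.ofReal (K * Real.log (2 + |y0|)) +
          ∑ i, ENNReal.ofReal (hh σ (ρ i).im y)) := by
        refine setLIntegral_mono' measurableSet_Icc (fun y hy => ?_)
        rw [← ENNReal.ofReal_sum_of_nonneg (fun i _ => hnn i y),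
          ← ENNReal.ofReal_add (by positivity) (Finset.sum_nonneg fun i _ => hnn i y)]
        apply ENNReal.ofReal_le_ofReal
        have h1 := hD ((σ : ℂ) + y * Complex.I) (by simpa using hσ) (by simpa using hσ1)
          (by
            simp only [Complex.add_im, Complex.ofReal_im, Complex.mul_im, Complex.ofReal_re,
              Complex.I_im, Complex.I_re]
            rw [abs_le]
            constructor
            · linarith [hy.1]
            · linarith [hy.2])
        refine h1.trans (add_le_add le_rfl (Finset.sum_le_sum fun i _ => ?_))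
        have h2 : (σ + |y - (ρ i).im|) / 2 ≤ ‖(σ : ℂ) + y * Complex.I - ρ i‖ := by
          have a1 := Complex.abs_re_le_norm ((σ : ℂ) + y * Complex.I - ρ i)
          have a2 := Complex.abs_im_le_norm ((σ : ℂ) + y * Complex.I - ρ i)
          simp only [Complex.sub_re, Complex.sub_im, Complex.add_re, Complex.add_im,
            Complex.ofReal_re, Complex.ofReal_im, Complex.mul_re, Complex.mul_im, Complex.I_re,
            Complex.I_im, mul_zero, mul_one, sub_zero, add_zero, zero_add] at a1 a2
          have a3 : σ ≤ |σ - (ρ i).re| := (by linarith [hρ i] : σ ≤ σ - (ρ i).re).trans (le_abs_self _)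
          linarith
        have h3 := den_pos σ (ρ i).im y hσ
        unfold hh
        rw [div_le_div_iff₀ (by linarith) h3]
        linarith
    _ = ENNReal.ofReal (K * Real.log (2 + |y0|)) + ∑ i,
          ∫⁻ y in Icc (y0 - 1 / 2) (y0 + 1 / 2), ENNReal.ofReal (hh σ (ρ i).im y) := by
        rw [lintegral_add_left measurable_const, lintegral_finsetSum _ (fun i _ => hm i),
          setLIntegral_const, Real.volume_Icc]
        norm_num
    _ ≤ ENNReal.ofReal (K * Real.log (2 + |y0|)) + ∑ i : Fin n,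
          ENNReal.ofReal (5 * (1 + Real.log (1 / σ))) :=
        add_le_add le_rfl (Finset.sum_le_sum fun i _ => win1 σ (ρ i).im y0 hσ hσ1)
    _ = ENNReal.ofReal (K * Real.log (2 + |y0|) + n * (5 * (1 + Real.log (1 / σ)))) := by
        rw [Finset.sum_const, Finset.card_univ, Fintype.card_fin, nsmul_eq_mul,
          ENNReal.ofReal_add (by positivity) (by positivity), ENNReal.ofReal_mul (p := (n : ℝ)) (by positivity),
          ENNReal.ofReal_natCast]
    _ ≤ ENNReal.ofReal (6 * K * Real.log (2 + |y0|) * (1 + Real.log (1 / σ))) := by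
        apply ENNReal.ofReal_le_ofReal
        have h1 : (n : ℝ) * (5 * (1 + Real.log (1 / σ))) ≤
            K * Real.log (2 + |y0|) * (5 * (1 + Real.log (1 / σ))) :=
          mul_le_mul_of_nonneg_right hn (by positivity)
        have h2 : 0 ≤ K * Real.log (2 + |y0|) * Real.log (1 / σ) := by positivity
        nlinarith

end Pool.Agent.W806.SP
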